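import Pool.Agent.Helper7.HL.Stmts

/-!
Row BL4 of the project HL (MP_ac62f2_co).
-/

namespace Pool.Agent.Helper39.HL

open Pool.Agent.Helper7.HL

open Finset

theorem bl4_mem (N k : ℕ) (cs : List ℕ) (b : List (Finset ℕ)) :
    b ∈ tl N (k :: cs) ↔ ∃ c b', c ⊆ range N ∧ c.card = k ∧ b' ∈ tl N cs ∧ b = c :: b' := by
  simp only [tl, mem_image, mem_product, mem_powersetCard, Prod.exists]
  constructor
  · rintro ⟨c, b', ⟨⟨h1, h2⟩, h3⟩, h4⟩
    exact ⟨c, b', h1, h2, h3, h4.symm⟩
  · rintro ⟨c, b', h1, h2, h3, h4⟩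
    exact ⟨c, b', ⟨⟨h1, h2⟩, h3⟩, h4.symm⟩

theorem bl4_rt (N i j : ℕ) (hi : i < N) (hj : j < N) (h : (j + 1) % N = (i + 1) % N) : j = i := by
  have h1 : j ≡ i [MOD N] := Nat.ModEq.add_right_cancel' 1 h
  exact Nat.ModEq.eq_of_lt_of_lt h1 hj hi

theorem bl4_rtm (N i : ℕ) (c : Finset ℕ) (hi : i < N) (hc : c ⊆ range N) :
    (i + 1) % N ∈ rt N c ↔ i ∈ c := by
  unfold rt
  rw [mem_image]
  constructor
  · rintro ⟨j, hj, h⟩
    have := bl4_rt N i j hi (mem_range.mp (hc hj)) h
    rwa [← this]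
  · intro h
    exact ⟨i, h, rfl⟩

theorem bl4_rts (N : ℕ) (c : Finset ℕ) (hN : 0 < N) : rt N c ⊆ range N := by
  intro x hx
  unfold rt at hx
  rw [mem_image] at hx
  obtain ⟨j, _, rfl⟩ := hx
  exact mem_range.mpr (Nat.mod_lt _ hN)

theorem bl4_rtc (N : ℕ) (c : Finset ℕ) (hc : c ⊆ range N) : (rt N c).card = c.card := by
  unfold rt
  apply card_image_of_injOn
  intro i hi j hj h
  exact (bl4_rt N j i (mem_range.mp (hc hj)) (mem_range.mp (hc hi)) h)

theorem bl4_rti (N : ℕ) (c d : Finset ℕ) (hc : c ⊆ range N) (hd : d ⊆ range N)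
    (h : rt N c = rt N d) : c = d := by
  ext i
  by_cases hi : i < N
  · rw [← bl4_rtm N i c hi hc, h, bl4_rtm N i d hi hd]
  · constructor
    · intro h'; exact absurd (mem_range.mp (hc h')) hi
    · intro h'; exact absurd (mem_range.mp (hd h')) hi

theorem bl4_tl (N : ℕ) (cs : List ℕ) : ∀ b ∈ tl N cs, ∀ x ∈ b, x ⊆ range N := by
  induction cs with
  | nil =>
    intro b hb
    simp only [tl, mem_singleton] at hb
    subst hb
    simp
  | cons k cs ih =>
    intro b hb
    rw [bl4_mem] at hb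
    obtain ⟨c, b', h1, _, h3, rfl⟩ := hb
    intro x hx
    rw [List.mem_cons] at hx
    rcases hx with rfl | hx
    · exact h1
    · exact ih b' h3 x hx

theorem bl4_LL (h1 : ST_BW1) (N : ℕ) (cs : List ℕ) (hd : Dec cs) :
    ∀ b ∈ tl N cs, ∀ x ∈ LL N b, x ⊆ range N ∧ x.card ∈ cs := by
  induction cs with
  | nil =>
    intro b hb
    simp only [tl, mem_singleton] at hb
    subst hb
    simp [LL]
  | cons k cs ih =>
    intro b hb
    rw [bl4_mem] at hb
    obtain ⟨c, b', h2, h3, h4, rfl⟩ := hb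
    have hd' : Dec cs := (List.pairwise_cons.mp hd).2
    intro x hx
    unfold LL at hx
    rw [List.mem_cons] at hx
    rcases hx with rfl | hx
    · exact ⟨h2, by rw [h3]; exact List.mem_cons_self⟩
    · rw [List.mem_map] at hx
      obtain ⟨d, hdm, rfl⟩ := hx
      obtain ⟨g1, g2⟩ := ih hd' b' h4 d hdm
      have hle : d.card ≤ c.card := by
        rw [h3]
        exact (List.pairwise_cons.mp hd).1 _ g2
      obtain ⟨_, _, f3, _, f5, _⟩ := h1 N c d h2 g1 hle
      exact ⟨f5, by rw [f3]; exact List.mem_cons_of_mem _ g2⟩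

theorem bl4_sum (N : ℕ) (c : Finset ℕ) (L : List (Finset ℕ))
    (h : ∀ d ∈ L, Hen N (rt N c) (rt N d) + (if N - 1 ∈ Rl N c d then 1 else 0) =
      Hen N c d + (if N - 1 ∈ d then 1 else 0)) :
    (L.map (fun d => Hen N (rt N c) (rt N d))).sum +
      L.countP (fun d => decide (N - 1 ∈ Rl N c d)) =
    (L.map (fun d => Hen N c d)).sum + L.countP (fun d => decide (N - 1 ∈ d)) := by
  induction L with
  | nil => simp
  | cons d L ih =>
    have i1 := ih (fun x hx => h x (List.mem_cons_of_mem _ hx))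
    have i2 := h d List.mem_cons_self
    rw [List.map_cons, List.map_cons, List.sum_cons, List.sum_cons, List.countP_cons,
      List.countP_cons]
    simp only [decide_eq_true_eq]
    omega

theorem bl4_main (h1 : ST_BW1) (h2 : ST_BW2) (N : ℕ) (hN : 0 < N) (cs : List ℕ) (hd : Dec cs) :
    ∀ b ∈ tl N cs, b.map (rt N) ∈ tl N cs ∧ LL N (b.map (rt N)) = (LL N b).map (rt N) ∧
      DD N (b.map (rt N)) + (LL N b).countP (fun x => decide (N - 1 ∈ x)) =
        DD N b + wtc b (N - 1) := by
  induction cs with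
  | nil =>
    intro b hb
    simp only [tl, mem_singleton] at hb
    subst hb
    simp [LL, DD, wtc, tl]
  | cons k cs ih =>
    intro b hb
    have hb0 := hb
    rw [bl4_mem] at hb
    obtain ⟨c, b', g1, g2, g3, rfl⟩ := hb
    have hd' : Dec cs := (List.pairwise_cons.mp hd).2
    obtain ⟨i1, i2, i3⟩ := ih hd' b' g3
    have hLL := bl4_LL h1 N cs hd' b' g3
    have hle : ∀ d ∈ LL N b', d.card ≤ c.card := by
      intro d hdm
      rw [g2]
      exact (List.pairwise_cons.mp hd).1 _ (hLL d hdm).2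
    have hB : ∀ d ∈ LL N b', Rl N (rt N c) (rt N d) = rt N (Rl N c d) ∧
        Hen N (rt N c) (rt N d) + (if N - 1 ∈ Rl N c d then 1 else 0) =
          Hen N c d + (if N - 1 ∈ d then 1 else 0) := by
      intro d hdm
      exact h2 N c d hN g1 (hLL d hdm).1 (hle d hdm)
    refine ⟨?_, ?_, ?_⟩
    · rw [bl4_mem]
      exact ⟨rt N c, b'.map (rt N), bl4_rts N c hN, by rw [bl4_rtc N c g1, g2], i1, by
        rw [List.map_cons]⟩
    · rw [List.map_cons]
      unfold LL
      rw [i2, List.map_cons, List.map_map, List.map_map]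
      congr 1
      apply List.map_congr_left
      intro d hdm
      simp only [Function.comp]
      exact (hB d hdm).1
    · rw [List.map_cons]
      have e1 : DD N (rt N c :: b'.map (rt N)) = DD N (b'.map (rt N)) +
          ((LL N b').map (fun d => Hen N (rt N c) (rt N d))).sum := by
        conv_lhs => unfold DD
        rw [i2, List.map_map]
        rfl
      have e2 : DD N (c :: b') = DD N b' + ((LL N b').map (fun d => Hen N c d)).sum := rfl
      have e3 : (LL N (c :: b')).countP (fun x => decide (N - 1 ∈ x)) =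
          (LL N b').countP (fun d => decide (N - 1 ∈ Rl N c d)) +
            (if N - 1 ∈ c then 1 else 0) := by
        have : LL N (c :: b') = c :: (LL N b').map (fun d => Rl N c d) := rfl
        rw [this, List.countP_cons, List.countP_map]
        simp only [decide_eq_true_eq]
        rfl
      have e4 : wtc (c :: b') (N - 1) = wtc b' (N - 1) + (if N - 1 ∈ c then 1 else 0) := by
        unfold wtc
        rw [List.countP_cons]
        simp only [decide_eq_true_eq]
      have e5 := bl4_sum N c (LL N b') (fun d hdm => (hB d hdm).2)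
      rw [e1, e2, e3, e4]
      omega

theorem bl4_inj (N : ℕ) (cs : List ℕ) :
    Set.InjOn (fun b : List (Finset ℕ) => b.map (rt N)) (tl N cs : Set (List (Finset ℕ))) := by
  induction cs with
  | nil =>
    intro b hb b' hb' _
    simp only [tl, coe_singleton, Set.mem_singleton_iff] at hb hb'
    rw [hb, hb']
  | cons k cs ih =>
    intro b hb b' hb' h
    rw [mem_coe, bl4_mem] at hb hb'
    obtain ⟨c, b1, g1, _, g3, rfl⟩ := hb
    obtain ⟨c', b1', g1', _, g3', rfl⟩ := hb'
    simp only [List.map_cons, List.cons.injEq] at h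
    rw [bl4_rti N c c' g1 g1' h.1, ih g3 g3' h.2]

theorem st_BL4 (h1 : ST_BW1) (h2 : ST_BW2) : ST_BL4 := by
  intro N cs hN hd
  refine ⟨fun b hb => ?_, ?_⟩
  · obtain ⟨g1, g2, g3⟩ := bl4_main h1 h2 N hN cs hd b hb
    refine ⟨g1, g2, g3, fun i hi => ?_⟩
    unfold wtc
    rw [List.countP_map]
    apply List.countP_congr
    intro x hx
    simp only [Function.comp, decide_eq_true_eq]
    exact bl4_rtm N i x hi (bl4_tl N cs b hb x hx)
  · have hm : Set.MapsTo (fun b : List (Finset ℕ) => b.map (rt N))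
        (tl N cs : Set (List (Finset ℕ))) (tl N cs : Set (List (Finset ℕ))) := by
      intro b hb
      exact (bl4_main h1 h2 N hN cs hd b hb).1
    exact ⟨hm, bl4_inj N cs, Finset.surjOn_of_injOn_of_card_le _ hm (bl4_inj N cs) le_rfl⟩

end Pool.Agent.Helper39.HL
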