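import Pool.Agent.Helper7.HL.Stmts

/-!
Row BW3 of the project HL (MP_ac62f2_co).
-/

namespace Pool.Agent.Helper39.HL

open Pool.Agent.Helper7.HL

open Finset

theorem bw3_wlk (N : ℕ) (c d : Finset ℕ) (i j : ℕ) (hij : i ≤ j) :
    wlk N c d j = wlk N c d i +
      ∑ l ∈ Finset.Ico i j, ((if l % N ∈ d then 1 else 0) - (if l % N ∈ c then 1 else 0) : ℤ) := by
  unfold wlk
  rw [Finset.sum_range_add_sum_Ico _ hij]

theorem bw3_mono (N : ℕ) (c d d' : Finset ℕ) (h : d' ⊆ d) (i j : ℕ) (hij : i ≤ j)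
    (hlt : wlk N c d j < wlk N c d i) : wlk N c d' j < wlk N c d' i := by
  rw [bw3_wlk N c d i j hij] at hlt
  rw [bw3_wlk N c d' i j hij]
  have hle : ∑ l ∈ Finset.Ico i j,
      ((if l % N ∈ d' then 1 else 0) - (if l % N ∈ c then 1 else 0) : ℤ) ≤
      ∑ l ∈ Finset.Ico i j, ((if l % N ∈ d then 1 else 0) - (if l % N ∈ c then 1 else 0) : ℤ) := by
    refine Finset.sum_le_sum fun l _ => ?_
    have : (if l % N ∈ d' then 1 else 0 : ℤ) ≤ (if l % N ∈ d then 1 else 0 : ℤ) := by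
      by_cases h1 : l % N ∈ d'
      · rw [if_pos h1, if_pos (h h1)]
      · rw [if_neg h1]; split_ifs <;> norm_num
    linarith
  linarith

theorem bw3_Um (N : ℕ) (c d d' : Finset ℕ) (h : d' ⊆ d) : Um N c d ⊆ Um N c d' := by
  intro i hi
  unfold Um at hi ⊢
  rw [Finset.mem_filter] at hi ⊢
  refine ⟨hi.1, fun j hj => ?_⟩
  exact bw3_mono N c d d' h i j (Finset.mem_Ioc.mp hj).1.le (hi.2 j hj)

theorem st_BW3 : ST_BW3 := by
  intro N
  refine ⟨fun c d d' h => bw3_Um N c d d' h, ?_⟩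
  intro b
  induction b with
  | nil => simp [LL]
  | cons c b ih =>
    unfold LL
    rw [List.pairwise_cons]
    constructor
    · intro x hx
      rw [List.mem_map] at hx
      obtain ⟨d, _, rfl⟩ := hx
      unfold Rl
      exact Finset.sdiff_subset
    · rw [List.pairwise_map]
      refine ih.imp ?_
      intro x y hxy
      unfold Rl
      exact Finset.sdiff_subset_sdiff (Finset.Subset.refl _) (bw3_Um N c x y hxy)

end Pool.Agent.Helper39.HL
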