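import Pool.Agent.Helper7.HL.Stmts

/-!
Row CL of the project HL (MP_ac62f2_co).
-/

namespace Pool.Agent.Helper39.HL

open Pool.Agent.Helper7.HL

open Finset

theorem cl_block (k : ℕ) : ∏ i : Fin k, (1 - Polynomial.X ^ (dl k i + 1) : Polynomial ℤ) =
    ∏ i ∈ range k, (1 - Polynomial.X ^ (i + 1) : Polynomial ℤ) := by
  have h1 := Fin.prod_univ_eq_prod_range
    (fun j : ℕ => (1 - Polynomial.X ^ (k - 1 - j + 1) : Polynomial ℤ)) k
  have h2 := Finset.prod_range_reflect
    (fun j : ℕ => (1 - Polynomial.X ^ (j + 1) : Polynomial ℤ)) k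
  rw [← h2, ← h1]
  rfl

theorem st_CL : ST_CL := by
  intro n cs
  induction cs generalizing n with
  | nil =>
    intro h
    simp only [List.sum_nil] at h
    subst h
    refine ⟨fun _ => 1, fun _ => Nat.one_pos, ?_, ?_⟩
    · simp [legS]
    · simp
  | cons k cs ih =>
    intro h
    rw [List.sum_cons] at h
    obtain ⟨h', hp, hs, hpr⟩ := ih cs.sum rfl
    subst h
    refine ⟨Fin.append (fun i : Fin k => dl k i + 1) h', ?_, ?_, ?_⟩
    · intro c
      refine Fin.addCases (fun i => ?_) (fun i => ?_) c
      · rw [Fin.append_left]; omega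
      · rw [Fin.append_right]; exact hp i
    · rw [Fin.sum_univ_add]
      simp only [Fin.append_left, Fin.append_right]
      rw [hs]
      rfl
    · rw [Fin.prod_univ_add]
      simp only [Fin.append_left, Fin.append_right]
      rw [hpr, cl_block, List.map_cons, List.prod_cons]

end Pool.Agent.Helper39.HL
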