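import Pool.Agent.Helper7.HL.Stmts

/-!
Row ID of the project HL (MP_ac62f2_co): identification of the operators' family with the
Macdonald family.
-/

namespace Pool.Agent.Helper39.HL

open Pool.Agent.Helper7.HL

open Finset MvPolynomial
open Pool.Agent.Helper32.HG

theorem id_dom {n : ℕ} {lam ν : Fin n → ℕ} (hl : Antitone lam)
    (h : Dge (fun i => (lam i : ℤ)) (fun i => (ν i : ℤ))) : DomLe ν lam := by
  intro k
  obtain ⟨S, hS, hle⟩ := h (univ.filter fun i : Fin n => i.val < k)
  have h1 : ∑ i ∈ S, lam i ≤ ∑ i : Fin n with i.val < S.card, lam i := by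
    have := top_sum hl (1 : Equiv.Perm (Fin n)) S
    simpa using this
  have hle' : ∑ i : Fin n with i.val < k, (ν i : ℤ) ≤ ∑ i ∈ S, (lam i : ℤ) := hle
  have h2 : ∑ i : Fin n with i.val < k, ν i ≤ ∑ i ∈ S, lam i := by exact_mod_cast hle'
  refine h2.trans (h1.trans ?_)
  by_cases hk : k ≤ n
  · rw [hS, card_lt k hk]
  · apply Finset.sum_le_sum_of_subset
    intro i _
    rw [mem_filter]
    exact ⟨mem_univ _, by have := i.isLt; omega⟩

theorem st_ID (h1 : ST_IDA) (h2 : ST_IDB) (h3 : ST_TT) (h4 : ST_STB) (h5 : ST_UN) : ST_ID := by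
  intro K _ _ n q t hq P hP cs hd hc hs hp
  obtain ⟨f, hf1, hf2, hf3⟩ := h2 K n q t hq cs hd hc hs hp
  obtain ⟨t1, t2⟩ := h3 K q t hq n cs hd hc
  have hsym : (fJ q t n cs).IsSymmetric := (h4 K (ptm t (Hc q t cs))).1 n
  have hhom := (h5 K q t).2.2 n cs hd
  have hexp := sym_expand hsym (fun e he => by rw [hhom e he, hs])
  have hl : Antitone (rowl n cs) := ((mem_parts _).1 hp).1
  have key : fJ q t n cs = clf q t cs • msym n K (rowl n cs) +
      ∑ ν ∈ below n (rowl n cs), coeff (ex ν) (fJ q t n cs) • msym n K ν := by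
    have e1 : ∑ ν ∈ parts n, coeff (ex ν) (fJ q t n cs) • msym n K ν =
        coeff (ex (rowl n cs)) (fJ q t n cs) • msym n K (rowl n cs) +
        ∑ ν ∈ (parts n).erase (rowl n cs), coeff (ex ν) (fJ q t n cs) • msym n K ν :=
      (Finset.add_sum_erase _ _ hp).symm
    have e2 : ∑ ν ∈ below n (rowl n cs), coeff (ex ν) (fJ q t n cs) • msym n K ν =
        ∑ ν ∈ (parts n).erase (rowl n cs), coeff (ex ν) (fJ q t n cs) • msym n K ν := by
      apply Finset.sum_subset
      · intro ν hν
        rw [mem_below] at hν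
        exact mem_erase.mpr ⟨hν.2.2, hν.1⟩
      · intro ν hν hν'
        rw [mem_erase] at hν
        have h0 : coeff (ex ν) (fJ q t n cs) = 0 := by
          by_contra hne
          apply hν'
          rw [mem_below]
          exact ⟨hν.2, id_dom hl (t1 ν hne), hν.1⟩
        rw [h0, zero_smul]
    rw [e2, ← t2, ← e1]
    exact hexp
  have := h1 K n q t hq P hP (rowl n cs) hp f (clf q t cs)
    (fun ν => coeff (ex ν) (fJ q t n cs)) hf1 (by rw [hf2]; exact key) hf3
  rw [hf2] at this
  exact this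

end Pool.Agent.Helper39.HL
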