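import Pool.Agent.Helper7.HL.Stmts

/-!
Row KD of the project HL (MP_ac62f2_co).
-/

namespace Pool.Agent.Helper39.HL

open Pool.Agent.Helper7.HL

open Finset MvPolynomial
open Pool.Agent.Helper32.HG

theorem kd_gw (k : ℕ) (S : Type) [CommRing S] (m : ℕ) :
    hk k S m = gw (fun _ => (1 : S)) k m := by
  unfold hk gw
  refine sum_congr rfl fun d _ => ?_
  rw [prod_const_one]
  rfl

theorem kd_stair (k : ℕ) (j : Fin k) : stair k j = (dl k j : ℤ) := by
  unfold stair dl
  rw [Fin.val_rev]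
  congr 1
  omega

theorem st_KD (h1 : ST_AL1) (h2 : ST_SYM) : ST_KD := by
  intro k S _ α l
  rw [(h1 k S).2.2.2 l (∏ i, hk k S (α i))]
  unfold Sd
  rw [← Matrix.det_transpose, Matrix.det_apply', coeff_sum]
  refine sum_congr rfl fun σ _ => ?_
  have e1 : (((Equiv.Perm.sign σ : ℤ)) : MvPolynomial (Fin k) S) =
      C (((Equiv.Perm.sign σ : ℤ)) : S) := (map_intCast (C : S →+* MvPolynomial (Fin k) S) _).symm
  rw [e1, coeff_C_mul]
  simp only [Matrix.transpose_apply, Matrix.of_apply, kd_stair]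
  by_cases h : ∀ i, dl k (σ i) ≤ l i
  · rw [if_pos h]
    congr 1
    have e2 : ∏ i, hz k S ((l i : ℤ) - (dl k (σ i) : ℤ)) =
        ∏ i, gw (fun _ => (1 : S)) k (l i - dl k (σ i)) := by
      refine prod_congr rfl fun i _ => ?_
      have e3 : (l i : ℤ) - (dl k (σ i) : ℤ) = ((l i - dl k (σ i) : ℕ) : ℤ) := by
        have := h i
        omega
      rw [e3]
      unfold hz
      rw [if_pos (by omega), Int.toNat_natCast, kd_gw]
    rw [e2]
    have e4 : ∏ i, hk k S (α i) = ∏ i, gw (fun _ => (1 : S)) k (α i) :=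
      prod_congr rfl fun i _ => kd_gw k S (α i)
    rw [e4]
    exact h2 S (fun _ => 1) k k α (fun i => l i - dl k (σ i))
  · rw [if_neg h]
    push Not at h
    obtain ⟨i, hi⟩ := h
    rw [prod_eq_zero (mem_univ i), coeff_zero, mul_zero]
    exact hz_neg (by omega)

end Pool.Agent.Helper39.HL
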