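import Pool.Agent.Helper7.HL.Stmts

/-!
Row SYA of the project HL (MP_ac62f2_co): the symmetry of the coefficients.
-/

namespace Pool.Agent.Helper39.HL

open Pool.Agent.Helper7.HL

open Finset MvPolynomial
open Pool.Agent.Helper32.HG

theorem sya_scf (N : ℕ) (R : Type) [CommRing R] (μ : Fin N → ℕ) (a : R)
    (p : MvPolynomial (Fin N) R) : scf N μ (a • p) = a * scf N μ p := by
  unfold scf
  rw [mul_smul_comm, coeff_smul, smul_eq_mul]

theorem sya_emi : emi qz = qF⁻¹ ∧ emi tz = tF⁻¹ := by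
  constructor
  · unfold emi qz
    simp
  · unfold emi tz
    simp

theorem st_SYA (h1 : ST_ID) (h2 : ST_INV) (h3 : ST_CI) (h4 : ST_GEN) (h5 : ST_MP) (h6 : ST_LAU) :
    ST_SYA := by
  intro n P hP cs hd hc hs hp μ _
  obtain ⟨_, g2, g3, g4, g5, g6, g7⟩ := h4
  apply h6
  have hP' : IsMac n qF⁻¹ tF⁻¹ P := h2 _ n qF tF g4 g5 P hP
  have e1 : emb (aP n cs μ) = clf qF tF cs * scf n μ (P (rowl n cs)) := by
    unfold aP
    rw [(h5 _ _ emb).2.2.2.2.1, (h5 _ _ emb).2.1, g2, g3,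
      h1 _ n qF tF g6 P hP cs hd hc hs hp, sya_scf]
  have e2 : emi (aP n cs μ) = clf qF⁻¹ tF⁻¹ cs * scf n μ (P (rowl n cs)) := by
    unfold aP
    rw [(h5 _ _ emi).2.2.2.2.1, (h5 _ _ emi).2.1, sya_emi.1, sya_emi.2,
      h1 _ n qF⁻¹ tF⁻¹ g7 P hP' cs hd hc hs hp, sya_scf]
  have e3 := h3 _ qF tF cs g4 g5
  rw [hs] at e3
  rw [e1, e2]
  linear_combination scf n μ (P (rowl n cs)) * e3

end Pool.Agent.Helper39.HL
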